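import Pool.Agent.N396.ZK.Stm2

/-!
# The core for matrices (project ZK2, part Core2)
-/

set_option autoImplicit false

namespace Pool.Agent.N118.ZK

open Finset Classical Pool.Agent.N396.ZK

theorem card_row {α β : Type} (R : α → β → Prop) (S : Finset β) (x : α) :
    ((row R S x).card : ℝ) = ∑ y ∈ S, (if R x y then (1 : ℝ) else 0) := by
  unfold row
  rw [Finset.sum_boole]

theorem card_inter {α β : Type} (R : α → β → Prop) (S : Finset β) (x x' : α) :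
    ((row R S x ∩ row R S x').card : ℝ) =
      ∑ y ∈ S, (if R x y then (1 : ℝ) else 0) * (if R x' y then (1 : ℝ) else 0) := by
  have h : row R S x ∩ row R S x' = S.filter (fun y => R x y ∧ R x' y) := by
    ext y
    simp only [row, mem_inter, mem_filter]
    tauto
  rw [h, ← Finset.sum_boole]
  refine Finset.sum_congr rfl fun y _ => ?_
  by_cases h1 : R x y <;> by_cases h2 : R x' y <;> simp [h1, h2]

/-- double counting -/
theorem dc {α β : Type} (R : α → β → Prop) (G : Finset α) (S : Finset β) :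
    ∑ x ∈ G, ((row R S x).card : ℝ) = ∑ y ∈ S, ((G.filter (fun x => R x y)).card : ℝ) := by
  simp only [card_row, ← Finset.sum_boole]
  exact Finset.sum_comm

/-- Cauchy-Schwarz -/
theorem star {α β : Type} (R : α → β → Prop) (G : Finset α) (S : Finset β) (M : ℕ)
    (h : ∀ x ∈ G, ∀ x' ∈ G, x ≠ x' → (row R S x ∩ row R S x').card ≤ M) :
    (∑ x ∈ G, ((row R S x).card : ℝ)) ^ 2 ≤
      S.card * (M * (G.card : ℝ) ^ 2 + ∑ x ∈ G, ((row R S x).card : ℝ)) := by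
  rw [dc R G S]
  refine (sq_sum_le_card_mul_sum_sq).trans ?_
  refine mul_le_mul_of_nonneg_left ?_ (Nat.cast_nonneg _)
  rw [← dc R G S]
  have h1 : ∑ y ∈ S, ((G.filter (fun x => R x y)).card : ℝ) ^ 2 =
      ∑ x ∈ G, ∑ x' ∈ G, ((row R S x ∩ row R S x').card : ℝ) := by
    simp only [card_inter]
    have : ∀ y ∈ S, ((G.filter (fun x => R x y)).card : ℝ) ^ 2 =
        ∑ x ∈ G, ∑ x' ∈ G, (if R x y then (1 : ℝ) else 0) * (if R x' y then (1 : ℝ) else 0) := by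
      intro y _
      rw [← Finset.sum_boole, sq, Finset.sum_mul_sum]
    rw [Finset.sum_congr rfl this, Finset.sum_comm]
    refine Finset.sum_congr rfl fun x _ => ?_
    rw [Finset.sum_comm]
  rw [h1]
  have h2 : ∀ x ∈ G, ∑ x' ∈ G, ((row R S x ∩ row R S x').card : ℝ) ≤
      M * G.card + (row R S x).card := by
    intro x hx
    have : ∀ x' ∈ G, ((row R S x ∩ row R S x').card : ℝ) ≤
        M + (if x' = x then ((row R S x).card : ℝ) else 0) := by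
      intro x' hx'
      by_cases hxx : x' = x
      · subst hxx
        simp
      · simp only [hxx, if_false, add_zero]
        exact_mod_cast h x hx x' hx' (Ne.symm hxx)
    refine (Finset.sum_le_sum this).trans ?_
    rw [Finset.sum_add_distrib, Finset.sum_const, Finset.sum_ite_eq' G x, if_pos hx, nsmul_eq_mul]
    linarith [mul_comm (M : ℝ) (G.card : ℝ)]
  refine (Finset.sum_le_sum h2).trans ?_
  rw [Finset.sum_add_distrib, Finset.sum_const, nsmul_eq_mul]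
  nlinarith


theorem arith1 {μ ε q τ σ : ℝ} (hμ : 0 < μ) (hε : 0 < ε) (hε2 : ε ≤ 1 / 2) (hq : 0 < q)
    (hσ : 0 ≤ σ)
    (h : -ε * (μ * q) ^ 2 ≤ 2 * (μ * q) * τ - (μ * q) ^ 2 - μ * σ) :
    μ * q / 4 ≤ τ ∧ σ ≤ 2 * q * τ ∧ μ * σ ≤ (1 + 16 * ε) * τ ^ 2 := by
  have hk : 0 < μ * q := mul_pos hμ hq
  have hμσ : 0 ≤ μ * σ := mul_nonneg hμ.le hσ
  have h1 : μ * q / 4 ≤ τ := by
    by_contra hc
    push Not at hc
    have : 2 * (μ * q) * τ < 2 * (μ * q) * (μ * q / 4) := by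
      apply mul_lt_mul_of_pos_left hc; linarith
    nlinarith [mul_nonneg (by linarith : (0:ℝ) ≤ 1 / 2 - ε) (sq_nonneg (μ * q))]
  have hτ : 0 < τ := by linarith
  refine ⟨h1, ?_, ?_⟩
  · have : μ * σ ≤ μ * (2 * q * τ) := by
      nlinarith [mul_nonneg (by linarith : (0:ℝ) ≤ 1 - ε) (sq_nonneg (μ * q))]
    exact le_of_mul_le_mul_left this hμ
  · have h2 : (μ * q) ^ 2 ≤ 16 * τ ^ 2 := by nlinarith
    nlinarith [sq_nonneg (τ - μ * q), mul_le_mul_of_nonneg_left h2 hε.le]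

theorem arith2 {E σ m : ℝ} (hE : 2 * σ ≤ E) (hσ : 0 ≤ σ)
    (h : E ^ 2 ≤ σ * (m + E)) : E ^ 2 ≤ 2 * (σ * m) := by
  have hE0 : 0 ≤ E := by linarith
  nlinarith [mul_le_mul_of_nonneg_right hE hE0]

theorem B1 {s q τ σ ε c : ℝ} (hs : 0 ≤ s) (hτ : 0 ≤ τ) (hc : 0 ≤ c) (hε : 0 ≤ ε)
    (h : σ ≤ 2 * q * τ) (h2 : 8 * s * q ≤ ε * c) : s * σ ≤ (ε / 2) * τ * c := by
  have h1 : s * σ ≤ s * (2 * q * τ) := mul_le_mul_of_nonneg_left h hs
  have h3 : (8 * s * q) * (τ / 4) ≤ (ε * c) * (τ / 4) :=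
    mul_le_mul_of_nonneg_right h2 (by positivity)
  have h4 : 0 ≤ ε * τ * c := by positivity
  have h5 : (8 * s * q) * (τ / 4) = s * (2 * q * τ) := by ring
  have h6 : (ε * c) * (τ / 4) = ε * τ * c / 4 := by ring
  have h7 : (ε / 2) * τ * c = ε * τ * c / 2 := by ring
  rw [h7]
  rw [h5, h6] at h3
  linarith

theorem B2 {q τ σ ε c : ℝ} (hτ : 0 ≤ τ) (hc : 0 ≤ c) (hε : 0 ≤ ε)
    (h : σ ≤ 2 * q * τ) (h2 : 16 * q ≤ ε * c) : 2 * σ ≤ (ε / 2) * τ * c := by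
  have := B1 (s := 2) (by norm_num) hτ hc hε h (by linarith)
  exact this

theorem B3 {τ sσ ε c E : ℝ} (hτ : 0 ≤ τ) (hc : 0 ≤ c) (hε : ε ≤ 1 / 2)
    (h : c * τ - sσ ≤ E) (h2 : sσ ≤ (ε / 2) * τ * c) : c * τ / 2 ≤ E := by
  have h3 : 0 ≤ (1 / 2 - ε) * (τ * c) := mul_nonneg (by linarith) (mul_nonneg hτ hc)
  have h4 : 0 ≤ τ * c := mul_nonneg hτ hc
  have h5 : (1 / 2 - ε) * (τ * c) = τ * c / 2 - 2 * ((ε / 2) * τ * c) := by ring
  have h6 : c * τ = τ * c := mul_comm _ _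
  rw [h5] at h3
  rw [h6] at h ⊢
  linarith

theorem B4 {τ σ ε c E : ℝ} (hτ : 0 ≤ τ) (hc : 0 ≤ c) (hε : ε ≤ 1 / 2)
    (h : 2 * σ ≤ (ε / 2) * τ * c) (h2 : c * τ / 2 ≤ E) : 2 * σ ≤ E := by
  have h3 : 0 ≤ (1 / 2 - ε) * (τ * c) := mul_nonneg (by linarith) (mul_nonneg hτ hc)
  have h4 : 0 ≤ τ * c := mul_nonneg hτ hc
  have h5 : (1 / 2 - ε) * (τ * c) = τ * c / 2 - 2 * ((ε / 2) * τ * c) := by ring
  have h6 : c * τ = τ * c := mul_comm _ _
  rw [h5] at h3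
  rw [h6] at h2
  linarith

theorem B5 {τ σ q c c' E M : ℝ} (hτ : 0 < τ) (hc : 0 < c) (hc' : 0 ≤ c') (hcc : c' ≤ c)
    (hσ : 0 ≤ σ) (hM : 0 ≤ M) (h1 : E ^ 2 ≤ 2 * (σ * (M * c' ^ 2))) (h2 : c * τ / 2 ≤ E)
    (h3 : σ ≤ 2 * q * τ) : τ ≤ 16 * M * q := by
  have h4 : c' ^ 2 ≤ c ^ 2 := pow_le_pow_left₀ hc' hcc 2
  have h5 : 2 * (σ * (M * c' ^ 2)) ≤ 2 * (σ * (M * c ^ 2)) := by
    have := mul_le_mul_of_nonneg_left (mul_le_mul_of_nonneg_left h4 hM) hσ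
    linarith
  have h6 : (c * τ / 2) ^ 2 ≤ E ^ 2 := pow_le_pow_left₀ (by positivity) h2 2
  have h7 : c ^ 2 * τ ^ 2 ≤ c ^ 2 * (8 * σ * M) := by
    have e1 : (c * τ / 2) ^ 2 = c ^ 2 * τ ^ 2 / 4 := by ring
    have e2 : 2 * (σ * (M * c ^ 2)) = c ^ 2 * (8 * σ * M) / 4 := by ring
    rw [e1] at h6
    rw [e2] at h5
    linarith
  have h8 : τ ^ 2 ≤ 8 * σ * M := le_of_mul_le_mul_left h7 (by positivity)
  have h9 : 8 * σ * M ≤ τ * (16 * M * q) := by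
    have := mul_le_mul_of_nonneg_right h3 (by linarith : (0:ℝ) ≤ 8 * M)
    have e1 : 2 * q * τ * (8 * M) = τ * (16 * M * q) := by ring
    have e2 : σ * (8 * M) = 8 * σ * M := by ring
    rw [e1, e2] at this
    exact this
  have h10 : τ * τ ≤ τ * (16 * M * q) := by
    have : τ * τ = τ ^ 2 := by ring
    rw [this]; linarith
  exact le_of_mul_le_mul_left h10 hτ

theorem B6 {τ σ c G E M ε μ g : ℝ} (hτ : 0 < τ) (hc : 0 ≤ c) (hG : 0 ≤ G) (hM : 0 < M)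
    (hε : 0 < ε) (hμ : 0 < μ)
    (h1 : (ε / 2) * τ * c ≤ E) (h2 : E ^ 2 ≤ 2 * (σ * (M * G ^ 2)))
    (hμσ : μ * σ ≤ (1 + 16 * ε) * τ ^ 2)
    (hg : g ^ 2 * (8 * M * (1 + 16 * ε)) ≤ ε ^ 2 * μ) : g * c ≤ G := by
  have h3 : ((ε / 2) * τ * c) ^ 2 ≤ 2 * (σ * (M * G ^ 2)) :=
    (pow_le_pow_left₀ (by positivity) h1 2).trans h2
  have h4 : τ ^ 2 * (ε ^ 2 * μ * c ^ 2) ≤ τ ^ 2 * ((8 * M * (1 + 16 * ε)) * G ^ 2) := by
    have a1 := mul_le_mul_of_nonneg_left h3 (by positivity : (0:ℝ) ≤ 4 * μ)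
    have a2 := mul_le_mul_of_nonneg_right hμσ (by positivity : (0:ℝ) ≤ 8 * M * G ^ 2)
    have e1 : 4 * μ * ((ε / 2) * τ * c) ^ 2 = τ ^ 2 * (ε ^ 2 * μ * c ^ 2) := by ring
    have e2 : 4 * μ * (2 * (σ * (M * G ^ 2))) = μ * σ * (8 * M * G ^ 2) := by ring
    have e3 : (1 + 16 * ε) * τ ^ 2 * (8 * M * G ^ 2) =
      τ ^ 2 * ((8 * M * (1 + 16 * ε)) * G ^ 2) := by ring
    rw [e1, e2] at a1
    rw [e3] at a2
    exact a1.trans a2
  have h5 : ε ^ 2 * μ * c ^ 2 ≤ (8 * M * (1 + 16 * ε)) * G ^ 2 :=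
    le_of_mul_le_mul_left h4 (by positivity)
  have h6 : (8 * M * (1 + 16 * ε)) * (g * c) ^ 2 ≤ (8 * M * (1 + 16 * ε)) * G ^ 2 := by
    have := mul_le_mul_of_nonneg_right hg (sq_nonneg c)
    have e1 : g ^ 2 * (8 * M * (1 + 16 * ε)) * c ^ 2 = (8 * M * (1 + 16 * ε)) * (g * c) ^ 2 := by
      ring
    rw [e1] at this
    exact this.trans h5
  exact le_of_sq_le_sq (le_of_mul_le_mul_left h6 (by positivity)) hG

theorem B7 {τ σ G E M ε : ℝ} (hτ : 0 < τ) (hG : 0 < G) (hε : ε ≤ 1 / 2)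
    (h1 : (1 - ε) * τ * G ≤ E) (h2 : E ^ 2 ≤ 2 * (σ * (M * G ^ 2))) : τ ^ 2 ≤ 8 * M * σ := by
  have h0 : 0 ≤ (1 - ε) * τ := mul_nonneg (by linarith) hτ.le
  have h3 : ((1 - ε) * τ * G) ^ 2 ≤ 2 * (σ * (M * G ^ 2)) :=
    (pow_le_pow_left₀ (mul_nonneg h0 hG.le) h1 2).trans h2
  have h4 : G ^ 2 * ((1 - ε) * τ) ^ 2 ≤ G ^ 2 * (2 * σ * M) := by
    have e1 : ((1 - ε) * τ * G) ^ 2 = G ^ 2 * ((1 - ε) * τ) ^ 2 := by ring
    have e2 : 2 * (σ * (M * G ^ 2)) = G ^ 2 * (2 * σ * M) := by ring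
    rw [e1, e2] at h3
    exact h3
  have h5 : ((1 - ε) * τ) ^ 2 ≤ 2 * σ * M := le_of_mul_le_mul_left h4 (by positivity)
  have h6 : (1 / 2 * τ) ^ 2 ≤ ((1 - ε) * τ) ^ 2 :=
    pow_le_pow_left₀ (by positivity) (mul_le_mul_of_nonneg_right (by linarith) hτ.le) 2
  have e : (1 / 2 * τ) ^ 2 = τ ^ 2 / 4 := by ring
  rw [e] at h6
  have e2 : 2 * σ * M = 8 * M * σ / 4 := by ring
  rw [e2] at h5
  linarith

theorem C1 {μ q τ σ M K : ℝ} (hμ : 0 < μ) (hq : 0 < q) (hq1 : 1 ≤ q) (hKq : K ≤ q)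
    (h1 : μ * q / 4 ≤ τ) (h2 : τ ^ 2 ≤ 8 * M * σ) : μ ^ 2 * K ≤ 128 * M * σ := by
  have h3 : (μ * q / 4) ^ 2 ≤ τ ^ 2 := pow_le_pow_left₀ (by positivity) h1 2
  have h4 : K ≤ q ^ 2 := by
    have : q * 1 ≤ q * q := mul_le_mul_of_nonneg_left hq1 hq.le
    have e : q ^ 2 = q * q := by ring
    rw [e]; linarith
  have h5 := mul_le_mul_of_nonneg_left h4 (sq_nonneg μ)
  have e : (μ * q / 4) ^ 2 = μ ^ 2 * q ^ 2 / 16 := by ring
  rw [e] at h3
  linarith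

theorem C2 {μ μ' σ M K Kf : ℝ} (hμ : 0 < μ) (hM : 0 < M)
    (hK : 512 * M * μ' * Kf ^ 2 / μ ^ 2 ≤ K) (h : μ ^ 2 * K ≤ 128 * M * σ) :
    4 * μ' * Kf ^ 2 ≤ σ := by
  have h1 : 512 * M * μ' * Kf ^ 2 ≤ K * μ ^ 2 := by
    rwa [div_le_iff₀ (by positivity)] at hK
  have h2 : 128 * M * (4 * μ' * Kf ^ 2) ≤ 128 * M * σ := by
    have e : 128 * M * (4 * μ' * Kf ^ 2) = 512 * M * μ' * Kf ^ 2 := by ring
    have e2 : K * μ ^ 2 = μ ^ 2 * K := by ring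
    rw [e]; rw [e2] at h1; exact h1.trans h
  exact le_of_mul_le_mul_left h2 (by positivity)

theorem C3 {μ μ' σ M K Kf : ℝ} (hμ : 0 < μ) (hμ' : 0 < μ') (hM : 0 < M)
    (hK : 128 * M * (Kf + 1) ^ 2 / (μ' * μ ^ 2) ≤ K) (h : μ ^ 2 * K ≤ 128 * M * σ) :
    (Kf + 1) ^ 2 ≤ μ' * σ := by
  have h1 : 128 * M * (Kf + 1) ^ 2 ≤ K * (μ' * μ ^ 2) := by
    rwa [div_le_iff₀ (by positivity)] at hK
  have h2 : 128 * M * (Kf + 1) ^ 2 ≤ 128 * M * (μ' * σ) := by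
    have := mul_le_mul_of_nonneg_left h hμ'.le
    have e : K * (μ' * μ ^ 2) = μ' * (μ ^ 2 * K) := by ring
    have e2 : 128 * M * (μ' * σ) = μ' * (128 * M * σ) := by ring
    rw [e2]; rw [e] at h1; exact h1.trans this
  exact le_of_mul_le_mul_left h2 (by positivity)

theorem C4 {μ μ' ε σ τ r : ℝ} (hμ : 0 < μ) (hμ' : 0 < μ') (hε2 : ε ≤ 1 / 2) (hτ : 0 < τ)
    (hμσ : μ * σ ≤ (1 + 16 * ε) * τ ^ 2) (hkey : μ' * (1 + 16 * ε) ≤ μ * (1 - ε) ^ 2)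
    (hrsq : r ^ 2 = μ' * σ) : r ≤ (1 - ε) * τ := by
  refine le_of_sq_le_sq ?_ (mul_nonneg (by linarith) hτ.le)
  rw [hrsq]
  have h1 : μ' * (μ * σ) ≤ μ' * ((1 + 16 * ε) * τ ^ 2) := mul_le_mul_of_nonneg_left hμσ hμ'.le
  have h2 : μ' * (1 + 16 * ε) * τ ^ 2 ≤ μ * (1 - ε) ^ 2 * τ ^ 2 :=
    mul_le_mul_of_nonneg_right hkey (sq_nonneg _)
  have h3 : μ * (μ' * σ) ≤ μ * ((1 - ε) * τ) ^ 2 := by
    have e1 : μ * (μ' * σ) = μ' * (μ * σ) := by ring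
    have e2 : μ * ((1 - ε) * τ) ^ 2 = μ * (1 - ε) ^ 2 * τ ^ 2 := by ring
    have e3 : μ' * ((1 + 16 * ε) * τ ^ 2) = μ' * (1 + 16 * ε) * τ ^ 2 := by ring
    rw [e1, e2]; rw [e3] at h1; exact h1.trans h2
  exact le_of_mul_le_mul_left h3 hμ

theorem C5 {μ' σ Kf r d : ℝ} (hKf : 0 < Kf) (hσ : 0 < σ) (hrK : Kf + 1 ≤ r) (hrsq : r ^ 2 = μ' * σ)
    (hd1 : d ≤ r) (hd2 : r - 1 < d) (hd0 : 0 ≤ d) (hσA : 4 * μ' * Kf ^ 2 ≤ σ) :
    |d ^ 2 / σ - μ'| ≤ 1 / Kf := by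
  have h1 : d ^ 2 ≤ μ' * σ := by
    rw [← hrsq]; exact pow_le_pow_left₀ hd0 hd1 2
  have h2 : μ' * σ - 2 * r ≤ d ^ 2 := by
    have h3 : (r - 1) ^ 2 ≤ d ^ 2 := pow_le_pow_left₀ (by linarith) hd2.le 2
    have e : (r - 1) ^ 2 = r ^ 2 - 2 * r + 1 := by ring
    rw [e, hrsq] at h3
    linarith
  have h3 : d ^ 2 / σ ≤ μ' := by rw [div_le_iff₀ hσ]; exact h1
  have h4 : μ' - 2 * r / σ ≤ d ^ 2 / σ := by
    rw [le_div_iff₀ hσ, sub_mul, div_mul_cancel₀ _ hσ.ne']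
    exact h2
  have h5 : 2 * r / σ ≤ 1 / Kf := by
    rw [div_le_div_iff₀ hσ hKf]
    refine le_of_sq_le_sq ?_ (by positivity)
    have e : (2 * r * Kf) ^ 2 = 4 * Kf ^ 2 * r ^ 2 := by ring
    rw [e, hrsq]
    have h6 := mul_le_mul_of_nonneg_right hσA hσ.le
    have e2 : 4 * Kf ^ 2 * (μ' * σ) = 4 * μ' * Kf ^ 2 * σ := by ring
    have e3 : (1 * σ) ^ 2 = σ * σ := by ring
    rw [e2, e3]
    exact h6
  have h6 : 0 < 1 / Kf := by positivity
  rw [abs_le]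
  constructor <;> linarith

theorem C6 {μ' σ M r r0 q : ℝ} (hμ' : 0 < μ') (hr0 : 0 ≤ r0) (hq : 0 < q)
    (hrsq : r ^ 2 = μ' * σ) (hr0sq : r0 ^ 2 = 32 * M * μ') (hσq : σ ≤ 32 * M * q ^ 2) :
    r ≤ r0 * q := by
  refine le_of_sq_le_sq ?_ (by positivity)
  rw [hrsq, mul_pow, hr0sq]
  have := mul_le_mul_of_nonneg_left hσq hμ'.le
  have e : 32 * M * μ' * q ^ 2 = μ' * (32 * M * q ^ 2) := by ring
  rw [e]; exact this

theorem core2 (hfin : StmFin) (hpick : StmPick) : StmCore2 := by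
  intro s k M μ μ' a hs hk hM hμ' hμμ hLP
  have hμ : 0 < μ := hμ'.trans hμμ
  have hM' : (1 : ℝ) ≤ M := by exact_mod_cast hM
  have hs' : (2 : ℝ) ≤ s := by exact_mod_cast hs
  obtain ⟨Kf, hKf, hF⟩ := hfin k M μ' a hμ' hLP
  obtain ⟨ε, hε0, hε2, hkey⟩ : ∃ ε : ℝ, 0 < ε ∧ ε ≤ 1 / 2 ∧
      μ' * (1 + 16 * ε) ≤ μ * (1 - ε) ^ 2 := by
    have hden : 0 < 16 * μ' + 2 * μ := by positivity
    refine ⟨(μ - μ') / (16 * μ' + 2 * μ), div_pos (by linarith) hden, ?_, ?_⟩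
    · rw [div_le_iff₀ hden]; nlinarith
    · have h1 : (μ - μ') / (16 * μ' + 2 * μ) * (16 * μ' + 2 * μ) = μ - μ' :=
        div_mul_cancel₀ _ hden.ne'
      nlinarith [mul_nonneg hμ.le (sq_nonneg ((μ - μ') / (16 * μ' + 2 * μ)))]
  obtain ⟨KB, hKB, hP⟩ := hpick s μ ε hs hμ hε0
  -- the constant for the number of good rows
  obtain ⟨g, hg0, hg⟩ : ∃ g : ℝ, 0 < g ∧ g ^ 2 * (8 * M * (1 + 16 * ε)) ≤ ε ^ 2 * μ := by
    have hd : 0 < 8 * (M : ℝ) * (1 + 16 * ε) := by positivity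
    refine ⟨Real.sqrt (ε ^ 2 * μ / (8 * M * (1 + 16 * ε))), Real.sqrt_pos.2 (by positivity), ?_⟩
    rw [Real.sq_sqrt (by positivity), div_mul_cancel₀ _ hd.ne']
  set r0 : ℝ := Real.sqrt (32 * M * μ') with hr0
  have hr00 : 0 ≤ r0 := Real.sqrt_nonneg _
  have hr0sq : r0 ^ 2 = 32 * M * μ' := Real.sq_sqrt (by positivity)
  refine ⟨1 + KB + 8 * s / ε + 16 / ε + 16 * s + 16 + 512 * M * μ' * Kf ^ 2 / μ ^ 2 +
    128 * M * (Kf + 1) ^ 2 / (μ' * μ ^ 2) + Kf * r0 ^ k / g, by positivity, ?_⟩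
  set K : ℝ := 1 + KB + 8 * s / ε + 16 / ε + 16 * s + 16 + 512 * M * μ' * Kf ^ 2 / μ ^ 2 +
    128 * M * (Kf + 1) ^ 2 / (μ' * μ ^ 2) + Kf * r0 ^ k / g with hKdef
  have t1 : 0 ≤ 8 * (s : ℝ) / ε := by positivity
  have t2 : 0 ≤ 16 / ε := by positivity
  have t3 : 0 ≤ 512 * M * μ' * Kf ^ 2 / μ ^ 2 := by positivity
  have t4 : 0 ≤ 128 * M * (Kf + 1) ^ 2 / (μ' * μ ^ 2) := by positivity
  have t5 : 0 ≤ Kf * r0 ^ k / g := by positivity
  have K1 : 1 ≤ K := by linarith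
  have K2 : KB ≤ K := by linarith
  have K3 : 8 * s / ε ≤ K := by linarith
  have K4 : 16 / ε ≤ K := by linarith
  have K5 : 16 * (s : ℝ) ≤ K := by linarith
  have K6 : 16 ≤ K := by linarith
  have K7 : 512 * M * μ' * Kf ^ 2 / μ ^ 2 ≤ K := by linarith
  have K8 : 128 * M * (Kf + 1) ^ 2 / (μ' * μ ^ 2) ≤ K := by linarith
  have K9 : Kf * r0 ^ k / g ≤ K := by linarith
  clear_value K
  intro α β R P Q n D hQ hD hKn hDs hKP hrow hcom
  set q : ℝ := n / D with hq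
  have hqK : K ≤ q := hKn
  have hq1 : 1 ≤ q := K1.trans hqK
  have hq0 : 0 < q := by linarith
  have hqk : q ≤ q ^ k := le_self_pow₀ hq1 (by omega)
  have hPq : K * q ≤ P.card := (mul_le_mul_of_nonneg_left hqk (by linarith)).trans hKP
  have hPKB : KB * q ≤ P.card := (mul_le_mul_of_nonneg_right K2 hq0.le).trans hPq
  obtain ⟨B, hBP, hBc, hB⟩ := hP α β R P Q n D hQ hD (K2.trans hqK) hDs hPKB hrow
  set S := com R Q B with hS
  set σ : ℝ := (S.card : ℝ) with hσ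
  have hσ0 : 0 ≤ σ := Nat.cast_nonneg _
  have hPpos : 0 < (P.card : ℝ) := by
    have : 0 < K * q := by positivity
    linarith
  rw [← dc R P S] at hB
  set τ : ℝ := (∑ x ∈ P, ((row R S x).card : ℝ)) / P.card with hτ
  have hPτ : ∑ x ∈ P, ((row R S x).card : ℝ) = P.card * τ := by
    rw [hτ, mul_div_cancel₀ _ hPpos.ne']
  obtain ⟨hτ1, hστ, hμσ⟩ := arith1 hμ hε0 hε2 hq0 hσ0 hB
  have hτ0 : 0 < τ := lt_of_lt_of_le (by positivity) hτ1
  -- sizes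
  have hP4 : (8 * s / ε) * q ≤ P.card := (mul_le_mul_of_nonneg_right K3 hq0.le).trans hPq
  have hP5 : (16 / ε) * q ≤ P.card := (mul_le_mul_of_nonneg_right K4 hq0.le).trans hPq
  have hP6 : (16 * s) * q ≤ P.card := (mul_le_mul_of_nonneg_right K5 hq0.le).trans hPq
  have hP7 : 16 * q ≤ P.card := (mul_le_mul_of_nonneg_right K6 hq0.le).trans hPq
  have hP4' : 8 * s * q ≤ ε * P.card := by
    have := mul_le_mul_of_nonneg_left hP4 hε0.le
    have e : ε * ((8 * s / ε) * q) = 8 * s * q := by field_simp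
    rwa [e] at this
  have hP5' : 16 * q ≤ ε * P.card := by
    have := mul_le_mul_of_nonneg_left hP5 hε0.le
    have e : ε * ((16 / ε) * q) = 16 * q := by field_simp
    rwa [e] at this
  -- the rows outside B
  have hsplit := Finset.sum_sdiff (f := fun x => ((row R S x).card : ℝ)) hBP
  have hBle : ∑ x ∈ B, ((row R S x).card : ℝ) ≤ s * σ := by
    calc ∑ x ∈ B, ((row R S x).card : ℝ) ≤ ∑ _x ∈ B, σ := by
          refine Finset.sum_le_sum fun x _ => ?_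
          rw [hσ]
          exact_mod_cast Finset.card_le_card (Finset.filter_subset _ _)
      _ = B.card * σ := by rw [Finset.sum_const, nsmul_eq_mul]
      _ ≤ s * σ := by
          refine mul_le_mul_of_nonneg_right ?_ hσ0
          rw [hBc]
          exact_mod_cast Nat.sub_le _ _
  set E' : ℝ := ∑ x ∈ P \ B, ((row R S x).card : ℝ) with hE'
  have hE'1 : P.card * τ - s * σ ≤ E' := by
    rw [hPτ] at hsplit; linarith
  have hpair : ∀ x ∈ P \ B, ∀ x' ∈ P \ B, x ≠ x' → (row R S x ∩ row R S x').card ≤ M := by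
    intro x hx x' hx' hxx
    rw [mem_sdiff] at hx hx'
    have hsub : row R S x ∩ row R S x' ⊆ com R Q (insert x (insert x' B)) := by
      intro y hy
      simp only [row, hS, com, mem_inter, mem_filter, mem_insert] at hy ⊢
      refine ⟨hy.1.1.1, ?_⟩
      rintro z (rfl | rfl | hz)
      · exact hy.1.2
      · exact hy.2.2
      · exact hy.1.1.2 z hz
    refine (Finset.card_le_card hsub).trans (hcom _ ?_ ?_)
    · intro z hz
      simp only [mem_insert] at hz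
      rcases hz with rfl | rfl | hz
      · exact hx.1
      · exact hx'.1
      · exact hBP hz
    · rw [card_insert_of_notMem, card_insert_of_notMem hx'.2, hBc]
      · omega
      · simp only [mem_insert, not_or]
        exact ⟨hxx, hx.2⟩
  -- the first application
  have hsσ : s * σ ≤ (ε / 2) * τ * P.card :=
    B1 (by linarith) hτ0.le hPpos.le hε0.le hστ hP4'
  have hE'2 : P.card * τ / 2 ≤ E' := B3 hτ0.le hPpos.le hε2 hE'1 hsσ
  have hσ2 : 2 * σ ≤ (ε / 2) * τ * P.card := B2 hτ0.le hPpos.le hε0.le hστ hP5'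
  have hτq : τ ≤ 16 * M * q := by
    have hs1 := star R (P \ B) S M hpair
    have hc : ((P \ B).card : ℝ) ≤ P.card := by
      exact_mod_cast Finset.card_le_card (Finset.sdiff_subset)
    have hE2σ : 2 * σ ≤ E' := B4 hτ0.le hPpos.le hε2 hσ2 hE'2
    exact B5 hτ0 hPpos (Nat.cast_nonneg _) hc hσ0 (by linarith) (arith2 hE2σ hσ0 hs1) hE'2 hστ
  have hσq : σ ≤ 32 * M * q ^ 2 := by
    calc σ ≤ 2 * q * τ := hστ
      _ ≤ 2 * q * (16 * M * q) := mul_le_mul_of_nonneg_left hτq (by positivity)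
      _ = 32 * M * q ^ 2 := by ring
  -- the good rows
  set G := (P \ B).filter (fun x => (1 - ε) * τ ≤ ((row R S x).card : ℝ)) with hG
  have hGsub : G ⊆ P \ B := Finset.filter_subset _ _
  set EG : ℝ := ∑ x ∈ G, ((row R S x).card : ℝ) with hEG
  have hEG1 : (ε / 2) * τ * P.card ≤ EG := by
    have h1 := Finset.sum_filter_add_sum_filter_not (P \ B)
      (fun x => (1 - ε) * τ ≤ ((row R S x).card : ℝ)) (fun x => ((row R S x).card : ℝ))
    have h2 : ∑ x ∈ (P \ B).filter (fun x => ¬ (1 - ε) * τ ≤ ((row R S x).card : ℝ)),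
        ((row R S x).card : ℝ) ≤ (1 - ε) * τ * P.card := by
      calc _ ≤ ∑ _x ∈ (P \ B).filter (fun x => ¬ (1 - ε) * τ ≤ ((row R S x).card : ℝ)),
            (1 - ε) * τ := by
            refine Finset.sum_le_sum fun x hx => ?_
            rw [mem_filter] at hx
            exact (not_le.1 hx.2).le
        _ = (((P \ B).filter (fun x => ¬ (1 - ε) * τ ≤ ((row R S x).card : ℝ))).card : ℝ) *
              ((1 - ε) * τ) := by rw [Finset.sum_const, nsmul_eq_mul]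
        _ ≤ P.card * ((1 - ε) * τ) := by
            refine mul_le_mul_of_nonneg_right ?_ (mul_nonneg (by linarith) hτ0.le)
            exact_mod_cast Finset.card_le_card
              ((Finset.filter_subset _ _).trans Finset.sdiff_subset)
        _ = (1 - ε) * τ * P.card := by ring
    have h3 : EG + ∑ x ∈ (P \ B).filter (fun x => ¬ (1 - ε) * τ ≤ ((row R S x).card : ℝ)),
        ((row R S x).card : ℝ) = E' := h1
    have e1 : (1 - ε) * τ * P.card = P.card * τ - 2 * ((ε / 2) * τ * P.card) := by ring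
    rw [e1] at h2
    linarith
  have hstarG := star R G S M (fun x hx x' hx' => hpair x (hGsub hx) x' (hGsub hx'))
  have hG2 := arith2 (hσ2.trans hEG1) hσ0 hstarG
  have hM0 : (0 : ℝ) < M := by linarith
  have hGcard : g * P.card ≤ G.card :=
    B6 hτ0 hPpos.le (Nat.cast_nonneg _) hM0 hε0 hμ hEG1 hG2 hμσ hg
  have hGpos : 0 < (G.card : ℝ) := lt_of_lt_of_le (mul_pos hg0 hPpos) hGcard
  have hστ2 : τ ^ 2 ≤ 8 * M * σ := by
    have h1 : (1 - ε) * τ * G.card ≤ EG := by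
      calc (1 - ε) * τ * G.card = ∑ _x ∈ G, (1 - ε) * τ := by
            rw [Finset.sum_const, nsmul_eq_mul]; ring
        _ ≤ EG := by
            refine Finset.sum_le_sum fun x hx => ?_
            rw [hG, mem_filter] at hx
            exact hx.2
    exact B7 hτ0 hGpos hε2 h1 hG2
  have hσlow : μ ^ 2 * K ≤ 128 * M * σ := C1 hμ hq0 hq1 hqK hτ1 hστ2
  have hσA : 4 * μ' * Kf ^ 2 ≤ σ := C2 hμ hM0 K7 hσlow
  have hσB : (Kf + 1) ^ 2 ≤ μ' * σ := C3 hμ hμ' hM0 K8 hσlow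
  have hσpos : 0 < σ := lt_of_lt_of_le (by positivity) hσA
  -- the size of the sets
  set r : ℝ := Real.sqrt (μ' * σ) with hr
  have hr0' : 0 ≤ r := Real.sqrt_nonneg _
  have hrsq : r ^ 2 = μ' * σ := Real.sq_sqrt (mul_nonneg hμ'.le hσ0)
  set d : ℕ := ⌊r⌋₊ with hd
  have hd1 : (d : ℝ) ≤ r := Nat.floor_le hr0'
  have hd2 : r - 1 < d := by
    have := Nat.lt_floor_add_one r
    linarith
  have hrτ : r ≤ (1 - ε) * τ := C4 hμ hμ' hε2 hτ0 hμσ hkey hrsq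
  have hrK : Kf + 1 ≤ r := le_of_sq_le_sq (by rw [hrsq]; exact hσB) hr0'
  have hex : ∀ x : α, ∃ T : Finset β, x ∈ G → T ⊆ row R S x ∧ T.card = d := by
    intro x
    by_cases hx : x ∈ G
    · have h1 : d ≤ (row R S x).card := by
        have h2 : (1 - ε) * τ ≤ ((row R S x).card : ℝ) := by
          rw [hG, mem_filter] at hx; exact hx.2
        have h3 : (d : ℝ) ≤ ((row R S x).card : ℝ) := by linarith
        exact_mod_cast h3
      obtain ⟨T, hT1, hT2⟩ := Finset.exists_subset_card_eq h1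
      exact ⟨T, fun _ => ⟨hT1, hT2⟩⟩
    · exact ⟨∅, fun h => absurd h hx⟩
  choose T hT using hex
  refine hF α β G S T d ?_ ?_ ?_ ?_ ?_ ?_
  · intro x hx
    exact (hT x hx).1.trans (Finset.filter_subset _ _)
  · intro x hx
    exact (hT x hx).2
  · intro x hx x' hx' hxx
    refine (Finset.card_le_card ?_).trans (hpair x (hGsub hx) x' (hGsub hx') hxx)
    exact Finset.inter_subset_inter (hT x hx).1 (hT x' hx').1
  · linarith
  · have h1 : (d : ℝ) ≤ r0 * q := hd1.trans (C6 hμ' hr00 hq0 hrsq hr0sq hσq)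
    have h2 : (d : ℝ) ^ k ≤ r0 ^ k * q ^ k := by
      rw [← mul_pow]
      exact pow_le_pow_left₀ (Nat.cast_nonneg _) h1 k
    have h3 : Kf * r0 ^ k ≤ g * K := by
      rw [div_le_iff₀ hg0] at K9; linarith
    calc Kf * (d : ℝ) ^ k ≤ Kf * (r0 ^ k * q ^ k) := mul_le_mul_of_nonneg_left h2 hKf.le
      _ = (Kf * r0 ^ k) * q ^ k := by ring
      _ ≤ (g * K) * q ^ k := mul_le_mul_of_nonneg_right h3 (pow_nonneg hq0.le k)
      _ = g * (K * q ^ k) := by ring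
      _ ≤ g * P.card := mul_le_mul_of_nonneg_left hKP hg0.le
      _ ≤ G.card := hGcard
  · exact C5 hKf hσpos hrK hrsq hd1 hd2 (Nat.cast_nonneg _) hσA

end Pool.Agent.N118.ZK
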